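import Mathlib
import Pool.Agent.Helper3.FC.Goals

/-!
# Project FC, packet CL: the chain
-/

set_option autoImplicit false

namespace Pool.Agent.Helper78.FC.CL

open scoped Classical BigOperators

open Pool.Agent.Helper3.FC

theorem ex_eq (f : ℕ →₀ ℝ) (φ : ℕ → ℝ) : ex f φ = Finsupp.linearCombination ℝ φ f := by
  simp [ex, Finsupp.linearCombination_apply]

theorem ex_eq_sum (f : ℕ →₀ ℝ) (φ : ℕ → ℝ) : ex f φ = ∑ u ∈ f.support, f u * φ u := rfl

theorem ex_add (f g : ℕ →₀ ℝ) (φ : ℕ → ℝ) : ex (f + g) φ = ex f φ + ex g φ := by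
  simp only [ex_eq, map_add]

theorem ex_smul (a : ℝ) (f : ℕ →₀ ℝ) (φ : ℕ → ℝ) : ex (a • f) φ = a * ex f φ := by
  simp only [ex_eq, map_smul, smul_eq_mul]

theorem ex_zero (φ : ℕ → ℝ) : ex 0 φ = 0 := by
  simp only [ex_eq, map_zero]

theorem ex_sum {ι : Type} (s : Finset ι) (f : ι → ℕ →₀ ℝ) (φ : ℕ → ℝ) :
    ex (∑ i ∈ s, f i) φ = ∑ i ∈ s, ex (f i) φ := by
  simp only [ex_eq, map_sum]

theorem ex_congr {f : ℕ →₀ ℝ} {φ ψ : ℕ → ℝ} (h : ∀ u, f u ≠ 0 → φ u = ψ u) : ex f φ = ex f ψ := by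
  rw [ex_eq_sum, ex_eq_sum]
  refine Finset.sum_congr rfl fun u hu => ?_
  rw [h u (Finsupp.mem_support_iff.1 hu)]

theorem ex_mono {f : ℕ →₀ ℝ} {φ ψ : ℕ → ℝ} (h0 : ∀ u, 0 ≤ f u)
    (h : ∀ u, f u ≠ 0 → φ u ≤ ψ u) : ex f φ ≤ ex f ψ := by
  rw [ex_eq_sum, ex_eq_sum]
  refine Finset.sum_le_sum fun u hu => ?_
  exact mul_le_mul_of_nonneg_left (h u (Finsupp.mem_support_iff.1 hu)) (h0 u)

theorem ex_const (f : ℕ →₀ ℝ) (B : ℝ) : ex f (fun _ => B) = B * ex f (fun _ => 1) := by
  rw [ex_eq_sum, ex_eq_sum, Finset.mul_sum]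
  refine Finset.sum_congr rfl fun u _ => ?_
  ring

theorem ex_le_of_sub {f : ℕ →₀ ℝ} {φ : ℕ → ℝ} {B : ℝ} (hf : IsSub f) (hB : 0 ≤ B)
    (h : ∀ u, f u ≠ 0 → φ u ≤ B) : ex f φ ≤ B := by
  calc ex f φ ≤ ex f (fun _ => B) := ex_mono hf.1 h
    _ = B * ex f (fun _ => 1) := ex_const f B
    _ ≤ B * 1 := mul_le_mul_of_nonneg_left hf.2 hB
    _ = B := mul_one B

theorem ex_comm (f g : ℕ →₀ ℝ) (K : ℕ → ℕ → ℝ) :
    ex f (fun u => ex g (fun v => K u v)) = ex g (fun v => ex f (fun u => K u v)) := by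
  simp only [ex_eq_sum, Finset.mul_sum]
  rw [Finset.sum_comm]
  refine Finset.sum_congr rfl fun v _ => Finset.sum_congr rfl fun u _ => ?_
  ring

theorem ex_fin_sum {ι : Type} [Fintype ι] (f : ℕ →₀ ℝ) (φ : ι → ℕ → ℝ) :
    ex f (fun u => ∑ i, φ i u) = ∑ i, ex f (φ i) := by
  simp only [ex_eq_sum, Finset.mul_sum]
  rw [Finset.sum_comm]

theorem ex_mul_left (f : ℕ →₀ ℝ) (a : ℝ) (φ : ℕ → ℝ) :
    ex f (fun u => a * φ u) = a * ex f φ := by
  simp only [ex_eq_sum, Finset.mul_sum]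
  refine Finset.sum_congr rfl fun u _ => ?_
  ring

theorem ex_indic_le {f : ℕ →₀ ℝ} (S : Finset ℕ) {B : ℝ} (h0 : ∀ u, 0 ≤ f u)
    (hB : ∀ u, f u ≤ B) : ex f (fun u => if u ∈ S then 1 else 0) ≤ S.card * B := by
  rw [ex_eq_sum]
  calc ∑ u ∈ f.support, f u * (if u ∈ S then (1 : ℝ) else 0)
      = ∑ u ∈ f.support.filter (fun u => u ∈ S), f u := by
        rw [Finset.sum_filter]
        refine Finset.sum_congr rfl fun u _ => ?_
        split_ifs <;> simp
    _ ≤ ∑ u ∈ S, f u := by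
        apply Finset.sum_le_sum_of_subset_of_nonneg
        · intro u hu
          exact (Finset.mem_filter.1 hu).2
        · intro u _ _
          exact h0 u
    _ ≤ ∑ u ∈ S, B := Finset.sum_le_sum fun u _ => hB u
    _ = S.card * B := by rw [Finset.sum_const, nsmul_eq_mul]

/-- mixtures of weights -/
noncomputable def mixf {T : Type} (η : ℝ) (ν : ℕ → T → ℕ →₀ ℝ) (τ : T) : ℕ → ℕ →₀ ℝ
  | 0 => 0
  | j + 1 => (1 - η) • mixf η ν τ j + η • ν j τ

theorem mass_mixf {T : Type} (η : ℝ) (ν : ℕ → T → ℕ →₀ ℝ) (τ : T) (I : Set ℕ) (j : ℕ) :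
    mass I (mixf η ν τ j) = mix η (fun i => mass I (ν i τ)) j := by
  induction j with
  | zero => simp [mixf, mix, mass, ex_zero]
  | succ j ih =>
    rw [mixf, mix, ← ih]
    simp only [mass, ex_add, ex_smul]

theorem mix_congr {η : ℝ} {y y' : ℕ → ℝ} {j : ℕ} (h : ∀ i < j, y i = y' i) :
    mix η y j = mix η y' j := by
  induction j with
  | zero => rfl
  | succ j ih =>
    rw [mix, mix, ih (fun i hi => h i (Nat.lt_succ_of_lt hi)), h j (Nat.lt_succ_self j)]

theorem ex_mixf_le {T : Type} {η : ℝ} (h0 : 0 ≤ η) (h1 : η ≤ 1) (ν : ℕ → T → ℕ →₀ ℝ) (τ : T)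
    {j : ℕ} {φ : ℕ → ℝ} {B : ℝ} (hB : 0 ≤ B) (h : ∀ i < j, ex (ν i τ) φ ≤ B) :
    ex (mixf η ν τ j) φ ≤ B := by
  induction j with
  | zero =>
    rw [mixf, ex_zero]
    exact hB
  | succ j ih =>
    rw [mixf, ex_add, ex_smul, ex_smul]
    have h2 := ih (fun i hi => h i (Nat.lt_succ_of_lt hi))
    have h3 := h j (Nat.lt_succ_self j)
    nlinarith

theorem mixf_nonneg {T : Type} {η : ℝ} (h0 : 0 ≤ η) (h1 : η ≤ 1) (ν : ℕ → T → ℕ →₀ ℝ) (τ : T)
    {j : ℕ} (h : ∀ i < j, ∀ u, 0 ≤ ν i τ u) (u : ℕ) : 0 ≤ mixf η ν τ j u := by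
  induction j with
  | zero => simp [mixf]
  | succ j ih =>
    have h2 := ih (fun i hi => h i (Nat.lt_succ_of_lt hi))
    have h3 := h j (Nat.lt_succ_self j) u
    simp only [mixf, Finsupp.add_apply, Finsupp.smul_apply, smul_eq_mul]
    have : 0 ≤ 1 - η := by linarith
    positivity

theorem mixf_le {T : Type} {η : ℝ} (h0 : 0 ≤ η) (h1 : η ≤ 1) (ν : ℕ → T → ℕ →₀ ℝ) (τ : T)
    {j : ℕ} {B : ℝ} (hB : 0 ≤ B) (u : ℕ) (h : ∀ i < j, ν i τ u ≤ B) : mixf η ν τ j u ≤ B := by
  induction j with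
  | zero => simpa [mixf] using hB
  | succ j ih =>
    have h2 := ih (fun i hi => h i (Nat.lt_succ_of_lt hi))
    have h3 := h j (Nat.lt_succ_self j)
    simp only [mixf, Finsupp.add_apply, Finsupp.smul_apply, smul_eq_mul]
    nlinarith

theorem mixf_ne {T : Type} {η : ℝ} (ν : ℕ → T → ℕ →₀ ℝ) (τ : T)
    {j : ℕ} {u : ℕ} (h : mixf η ν τ j u ≠ 0) : ∃ i < j, ν i τ u ≠ 0 := by
  induction j with
  | zero => simp [mixf] at h
  | succ j ih =>
    by_cases h1 : ν j τ u = 0
    · by_cases h2 : mixf η ν τ j u = 0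
      · simp [mixf, h1, h2] at h
      · obtain ⟨i, hi, h3⟩ := ih h2
        exact ⟨i, Nat.lt_succ_of_lt hi, h3⟩
    · exact ⟨j, Nat.lt_succ_self j, h1⟩

/-- the weight of the self neighbours -/
noncomputable def MM {T : Type} [Fintype T] (ker : T → T → ℝ) (η : ℝ) (ν : ℕ → T → ℕ →₀ ℝ)
    (j : ℕ) (τ : T) : ℕ →₀ ℝ := ∑ τ', ker τ τ' • mixf η ν τ' j

theorem ex_MM {T : Type} [Fintype T] (ker : T → T → ℝ) (η : ℝ) (ν : ℕ → T → ℕ →₀ ℝ)
    (j : ℕ) (τ : T) (φ : ℕ → ℝ) :
    ex (MM ker η ν j τ) φ = ∑ τ', ker τ τ' * ex (mixf η ν τ' j) φ := by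
  rw [MM, ex_sum]
  refine Finset.sum_congr rfl fun τ' _ => ?_
  rw [ex_smul]

theorem MM_apply {T : Type} [Fintype T] (ker : T → T → ℝ) (η : ℝ) (ν : ℕ → T → ℕ →₀ ℝ)
    (j : ℕ) (τ : T) (u : ℕ) :
    MM ker η ν j τ u = ∑ τ', ker τ τ' * mixf η ν τ' j u := by
  rw [MM, Finsupp.finset_sum_apply]
  refine Finset.sum_congr rfl fun τ' _ => ?_
  rw [Finsupp.smul_apply, smul_eq_mul]

theorem MM_ne {T : Type} [Fintype T] {ker : T → T → ℝ} {η : ℝ} {ν : ℕ → T → ℕ →₀ ℝ}
    {j : ℕ} {τ : T} {u : ℕ} (h : MM ker η ν j τ u ≠ 0) :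
    ∃ i < j, ∃ τ', ker τ τ' ≠ 0 ∧ ν i τ' u ≠ 0 := by
  rw [MM_apply] at h
  obtain ⟨τ', _, h1⟩ := Finset.exists_ne_zero_of_sum_ne_zero h
  obtain ⟨i, hi, h2⟩ := mixf_ne ν τ' (right_ne_zero_of_mul h1)
  exact ⟨i, hi, τ', left_ne_zero_of_mul h1, h2⟩

theorem t (h : OLStmt) : CLStmt := by
  intro d N nb hG T _ C _ k2 hk base hbase hbN ker hker0 hker1 η hη0 hη1 Q hQ hQ1 hv1 hv2 L
  have hQp : (0 : ℝ) < Q := by exact_mod_cast hQ1
  have hQd : 32 * (d : ℝ) ^ 4 ≤ Q := by exact_mod_cast hQ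
  induction L with
  | zero =>
    exact ⟨N, nb, fun _ _ => 0, le_rfl, fun _ _ => rfl, hG, by simp, by simp, by simp, by simp,
      by simp, by simp, by simp⟩
  | succ L ih =>
    obtain ⟨N1, nb1, ν, hN1, hnb1, hG1, hpr, hsup, hle, hdis, hstr, hadj, hmass⟩ := ih
    have hB2 : (0 : ℝ) ≤ 2 / Q := by positivity
    -- the new base
    set M : T → ℕ →₀ ℝ := MM ker η ν L with hM
    have hM0 : ∀ τ u, 0 ≤ M τ u := by
      intro τ u
      rw [hM, MM_apply]
      exact Finset.sum_nonneg fun τ' _ => mul_nonneg (hker0 τ τ')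
        (mixf_nonneg hη0 hη1 ν τ' (fun i hi => (hpr i hi τ').1) u)
    have hMsub : ∀ τ, IsSub (M τ) := by
      intro τ
      refine ⟨hM0 τ, ?_⟩
      rw [hM, ex_MM]
      calc ∑ τ', ker τ τ' * ex (mixf η ν τ' L) (fun _ => 1)
          ≤ ∑ τ', ker τ τ' * 1 := by
            refine Finset.sum_le_sum fun τ' _ => mul_le_mul_of_nonneg_left ?_ (hker0 τ τ')
            exact ex_mixf_le hη0 hη1 ν τ' zero_le_one (fun i hi => (hpr i hi τ').2.le)
        _ = 1 := by simp [hker1]
    have hMle : ∀ τ u, M τ u ≤ 2 / Q := by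
      intro τ u
      rw [hM, MM_apply]
      calc ∑ τ', ker τ τ' * mixf η ν τ' L u
          ≤ ∑ τ', ker τ τ' * (2 / Q) := by
            refine Finset.sum_le_sum fun τ' _ => mul_le_mul_of_nonneg_left ?_ (hker0 τ τ')
            exact mixf_le hη0 hη1 ν τ' hB2 u (fun i hi => hle i hi τ' u)
        _ = 2 / Q := by rw [← Finset.sum_mul, hker1, one_mul]
    have hMne : ∀ τ u, M τ u ≠ 0 → N ≤ u ∧ u < N1 := by
      intro τ u hu
      obtain ⟨i, hi, τ', _, h2⟩ := MM_ne hu
      exact hsup i hi τ' u h2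
    have hMz : ∀ τ u, u < N → M τ u = 0 := by
      intro τ u hu
      by_contra h1
      exact absurd (hMne τ u h1).1 (not_le.2 hu)
    set base' : T → C ⊕ Fin k2 → ℕ →₀ ℝ := fun τ => Sum.elim (base τ) (fun _ => M τ) with hbase'
    have hb1 : ∀ τ c, IsSub (base' τ c) := by
      intro τ c
      rcases c with c | k
      · exact ⟨(hbase τ c).1, (hbase τ c).2.le⟩
      · exact hMsub τ
    have hb2 : ∀ τ c u, base' τ c u ≠ 0 → u < N1 := by
      intro τ c u hu
      rcases c with c | k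
      · exact (hbN τ c u hu).trans_le hN1
      · exact (hMne τ u hu).2
    -- the four sums
    have e1 : ∀ τ c c', ex (base τ c') (fun u' => ex (base τ c)
        (fun u => if u ∈ nb1 u' then 1 else 0)) ≤ 2 * d / Q := by
      intro τ c c'
      refine le_trans (le_of_eq ?_) (hv1 τ c c')
      refine ex_congr fun u' hu' => ?_
      rw [hnb1 u' (hbN τ c' u' hu')]
    have e2 : ∀ τ c', ex (base τ c') (fun u' => ex (M τ)
        (fun u => if u ∈ nb1 u' then 1 else 0)) ≤ 0 := by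
      intro τ c'
      refine ex_le_of_sub (hb1 τ (Sum.inl c')) le_rfl fun u' hu' => ?_
      refine ex_le_of_sub (hMsub τ) le_rfl fun u hu => ?_
      have h1 : u' < N := hbN τ c' u' hu'
      rw [if_neg]
      intro h2
      have h3 := (hG1 u' (h1.trans_le hN1)).1 u h2
      have h4 := (hMne τ u hu).1
      omega
    have e3 : ∀ τ c, ex (M τ) (fun u' => ex (base τ c)
        (fun u => if u ∈ nb1 u' then 1 else 0)) ≤ 2 * (Fintype.card C * (2 * d / Q)) := by
      intro τ c
      rw [ex_comm]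
      calc ex (base τ c) (fun v => ex (M τ) (fun u => if v ∈ nb1 u then 1 else 0))
          ≤ ex (base τ c) (fun u => 2 * ∑ c'', ∑ τ', ker τ τ' * base τ' c'' u) := by
            refine ex_mono (hbase τ c).1 fun u hu => ?_
            rw [hM, ex_MM]
            calc ∑ τ', ker τ τ' * ex (mixf η ν τ' L) (fun v => if u ∈ nb1 v then 1 else 0)
                ≤ ∑ τ', ker τ τ' * (2 * ∑ c'', base τ' c'' u) := by
                  refine Finset.sum_le_sum fun τ' _ => mul_le_mul_of_nonneg_left ?_ (hker0 τ τ')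
                  refine ex_mixf_le hη0 hη1 ν τ' ?_ (fun i hi => hadj i hi τ' u (hbN τ c u hu))
                  exact mul_nonneg zero_le_two
                    (Finset.sum_nonneg fun c'' _ => (hbase τ' c'').1 u)
              _ = 2 * ∑ c'', ∑ τ', ker τ τ' * base τ' c'' u := by
                  rw [Finset.sum_comm, Finset.mul_sum]
                  refine Finset.sum_congr rfl fun τ' _ => ?_
                  rw [← Finset.mul_sum]
                  ring
        _ = 2 * ∑ c'', ∑ τ', ker τ τ' * ex (base τ c) (fun u => base τ' c'' u) := by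
            rw [ex_mul_left, ex_fin_sum]
            refine congrArg _ (Finset.sum_congr rfl fun c'' _ => ?_)
            rw [ex_fin_sum]
            refine Finset.sum_congr rfl fun τ' _ => ?_
            rw [ex_mul_left]
        _ ≤ 2 * ∑ c'' : C, (2 * d / Q : ℝ) := by
            refine mul_le_mul_of_nonneg_left ?_ zero_le_two
            exact Finset.sum_le_sum fun c'' _ => hv2 τ c c''
        _ = 2 * (Fintype.card C * (2 * d / Q)) := by
            rw [Finset.sum_const, nsmul_eq_mul, Finset.card_univ]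
    have e4 : ∀ τ, ex (M τ) (fun u' => ex (M τ)
        (fun u => if u ∈ nb1 u' then 1 else 0)) ≤ 2 * d / Q := by
      intro τ
      refine ex_le_of_sub (hMsub τ) (by positivity) fun u' hu' => ?_
      refine (ex_indic_le (nb1 u') (hM0 τ) (hMle τ)).trans ?_
      have h1 : ((nb1 u').card : ℝ) ≤ d := by exact_mod_cast (hG1 u' (hMne τ u' hu').2).2.1
      calc ((nb1 u').card : ℝ) * (2 / Q) ≤ d * (2 / Q) := mul_le_mul_of_nonneg_right h1 hB2
        _ = 2 * d / Q := by ring
    have hhalf : ∀ τ, ∑ c, ∑ c', ex (base' τ c') (fun u' => ex (base' τ c)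
        (fun u => if u ∈ nb1 u' then 1 else 0)) ≤ 1 / 2 := by
      intro τ
      set p : ℝ := (Fintype.card C : ℝ) with hp
      have hsum : ∑ c, ∑ c', ex (base' τ c') (fun u' => ex (base' τ c)
          (fun u => if u ∈ nb1 u' then 1 else 0)) ≤
          p * (p * (2 * d / Q) + k2 * (2 * (p * (2 * d / Q)))) +
            k2 * (p * 0 + k2 * (2 * d / Q)) := by
        rw [Fintype.sum_sum_type]
        simp only [Fintype.sum_sum_type, hbase', Sum.elim_inl, Sum.elim_inr]
        refine add_le_add ?_ ?_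
        · calc _ ≤ ∑ c : C, (p * (2 * d / Q) + k2 * (2 * (p * (2 * d / Q)))) := by
                refine Finset.sum_le_sum fun c _ => add_le_add ?_ ?_
                · calc _ ≤ ∑ c' : C, (2 * d / Q : ℝ) := Finset.sum_le_sum fun c' _ => e1 τ c c'
                    _ = p * (2 * d / Q) := by
                      rw [Finset.sum_const, nsmul_eq_mul, Finset.card_univ]
                · calc _ ≤ ∑ k : Fin k2, (2 * (p * (2 * d / Q)) : ℝ) :=
                        Finset.sum_le_sum fun c' _ => e3 τ c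
                    _ = k2 * (2 * (p * (2 * d / Q))) := by
                      rw [Finset.sum_const, nsmul_eq_mul, Finset.card_univ, Fintype.card_fin]
            _ = _ := by rw [Finset.sum_const, nsmul_eq_mul, Finset.card_univ]
        · calc _ ≤ ∑ c : Fin k2, (p * 0 + k2 * (2 * d / Q) : ℝ) := by
                refine Finset.sum_le_sum fun c _ => add_le_add ?_ ?_
                · calc _ ≤ ∑ c' : C, (0 : ℝ) := Finset.sum_le_sum fun c' _ => e2 τ c'
                    _ = p * 0 := by simp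
                · calc _ ≤ ∑ k : Fin k2, (2 * d / Q : ℝ) :=
                        Finset.sum_le_sum fun c' _ => e4 τ
                    _ = k2 * (2 * d / Q) := by
                      rw [Finset.sum_const, nsmul_eq_mul, Finset.card_univ, Fintype.card_fin]
            _ = _ := by
              rw [Finset.sum_const, nsmul_eq_mul, Finset.card_univ, Fintype.card_fin]
      refine hsum.trans ?_
      have hp0 : 0 ≤ p := Nat.cast_nonneg _
      have hk0 : (0 : ℝ) ≤ k2 := Nat.cast_nonneg _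
      have hd0 : (0 : ℝ) ≤ d := Nat.cast_nonneg _
      have hpk : p + k2 ≤ d := by rw [hp]; exact_mod_cast hk
      have hd34 : (d : ℝ) ^ 3 ≤ (d : ℝ) ^ 4 := by
        rcases Nat.eq_zero_or_pos d with h0 | h0
        · simp [h0]
        · exact pow_le_pow_right₀ (by exact_mod_cast h0) (by norm_num)
      have hp1 : p ≤ d := by linarith
      have hk1 : (k2 : ℝ) ≤ d := by linarith
      have h1 : p ^ 2 + (k2 : ℝ) ^ 2 ≤ (d : ℝ) ^ 2 := by nlinarith [mul_nonneg hp0 hk0]
      have h2 : p ^ 2 * k2 ≤ (d : ℝ) ^ 3 := by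
        calc p ^ 2 * k2 ≤ (d : ℝ) ^ 2 * d := by gcongr
          _ = (d : ℝ) ^ 3 := by ring
      have e : p * (p * (2 * d / Q) + k2 * (2 * (p * (2 * d / Q)))) +
            k2 * (p * 0 + k2 * (2 * d / Q)) =
          (2 * d * (p ^ 2 + (k2 : ℝ) ^ 2) + 4 * d * (p ^ 2 * k2)) / Q := by ring
      rw [e, div_le_iff₀ hQp]
      have h3 : 2 * (d : ℝ) * (p ^ 2 + (k2 : ℝ) ^ 2) ≤ 2 * d * (d : ℝ) ^ 2 :=
        mul_le_mul_of_nonneg_left h1 (by positivity)
      have h4 : 4 * (d : ℝ) * (p ^ 2 * k2) ≤ 4 * d * (d : ℝ) ^ 3 :=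
        mul_le_mul_of_nonneg_left h2 (by positivity)
      have h5 : 2 * (d : ℝ) * (d : ℝ) ^ 2 = 2 * (d : ℝ) ^ 3 := by ring
      have h6 : 4 * (d : ℝ) * (d : ℝ) ^ 3 = 4 * (d : ℝ) ^ 4 := by ring
      have h7 : (0 : ℝ) ≤ (d : ℝ) ^ 4 := by positivity
      linarith
    have hcard : Fintype.card (C ⊕ Fin k2) ≤ d := by
      rw [Fintype.card_sum, Fintype.card_fin]
      exact hk
    obtain ⟨N2, nb2, μ, hN2, hnb2, hG2, hpr2, hsup2, hle2, hdis2, hstr2, hadj2, hmass2⟩ :=
      h d N1 nb1 hG1 T (C ⊕ Fin k2) hcard base' hb1 hb2 hhalf Q hQ1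
    have hlt : ∀ j, j < L → Function.update ν L μ j = ν j := fun j hj =>
      Function.update_of_ne (Nat.ne_of_lt hj) _ _
    have heq : Function.update ν L μ L = μ := Function.update_self _ _ _
    refine ⟨N2, nb2, Function.update ν L μ, hN1.trans hN2, ?_, hG2, ?_, ?_, ?_, ?_, ?_, ?_, ?_⟩
    · intro v hv
      rw [hnb2 v (hv.trans_le hN1), hnb1 v hv]
    · intro j hj τ
      rcases Nat.lt_succ_iff_lt_or_eq.1 hj with hj | rfl
      · rw [hlt j hj]
        exact hpr j hj τ
      · rw [heq]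
        exact hpr2 τ
    · intro j hj τ v
      rcases Nat.lt_succ_iff_lt_or_eq.1 hj with hj | rfl
      · rw [hlt j hj]
        intro h1
        exact ⟨(hsup j hj τ v h1).1, (hsup j hj τ v h1).2.trans_le hN2⟩
      · rw [heq]
        intro h1
        exact ⟨hN1.trans (hsup2 τ v h1).1, (hsup2 τ v h1).2⟩
    · intro j hj τ v
      rcases Nat.lt_succ_iff_lt_or_eq.1 hj with hj | rfl
      · rw [hlt j hj]
        exact hle j hj τ v
      · rw [heq]
        exact hle2 τ v
    · intro j hj j' hj' τ τ' v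
      rcases Nat.lt_succ_iff_lt_or_eq.1 hj with hj | rfl
      · rcases Nat.lt_succ_iff_lt_or_eq.1 hj' with hj' | rfl
        · rw [hlt j hj, hlt j' hj']
          exact hdis j hj j' hj' τ τ' v
        · rw [hlt j hj, heq]
          intro h1 h2
          have h3 := (hsup j hj τ v h1).2
          have h4 := (hsup2 τ' v h2).1
          omega
      · rcases Nat.lt_succ_iff_lt_or_eq.1 hj' with hj' | h5
        · rw [heq, hlt j' hj']
          intro h1 h2
          have h3 := (hsup j' hj' τ' v h2).2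
          have h4 := (hsup2 τ v h1).1
          omega
        · subst h5
          rw [heq]
          exact hdis2 τ τ' v
    · intro j hj τ v
      rcases Nat.lt_succ_iff_lt_or_eq.1 hj with hj | rfl
      · rw [hlt j hj]
        intro h1 u hu
        rw [hnb2 v (hsup j hj τ v h1).2] at hu
        rcases hstr j hj τ v h1 u hu with h2 | ⟨j', hj', τ', h3, h4⟩
        · exact Or.inl h2
        · refine Or.inr ⟨j', Nat.lt_succ_of_lt hj', τ', h3, ?_⟩
          rw [hlt j' hj']
          exact h4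
      · rw [heq]
        intro h1 u hu
        obtain ⟨c, hc⟩ := hstr2 τ v h1 u hu
        rcases c with c | k
        · exact Or.inl ⟨c, hc⟩
        · obtain ⟨i, hi, τ', h3, h4⟩ := MM_ne (ker := ker) (η := η) (ν := ν) hc
          refine Or.inr ⟨i, Nat.lt_succ_of_lt hi, τ', h3, ?_⟩
          rw [hlt i hi]
          exact h4
    · intro j hj τ u hu
      rcases Nat.lt_succ_iff_lt_or_eq.1 hj with hj | rfl
      · rw [hlt j hj]
        refine le_trans (le_of_eq ?_) (hadj j hj τ u hu)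
        refine ex_congr fun v hv => ?_
        rw [hnb2 v (hsup j hj τ v hv).2]
      · rw [heq]
        refine (hadj2 τ u).trans (le_of_eq ?_)
        rw [Fintype.sum_sum_type]
        simp only [hbase', Sum.elim_inl, Sum.elim_inr, hMz τ u hu, Finset.sum_const_zero, add_zero]
    · intro I hI j hj τ
      have hI1 : Indep N1 nb1 I := by
        intro v hv hvI u hu
        exact hI v (hv.trans_le hN2) hvI u (by rw [hnb2 v hv]; exact hu)
      rcases Nat.lt_succ_iff_lt_or_eq.1 hj with hj | rfl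
      · rw [hlt j hj]
        refine (hmass I hI1 j hj τ).trans (le_of_eq ?_)
        have h1 : ∀ τ', mix η (fun i => mass I (Function.update ν L μ i τ')) j =
            mix η (fun i => mass I (ν i τ')) j := fun τ' =>
          mix_congr fun i hi => by rw [hlt i (hi.trans hj)]
        simp only [h1]
      · rw [heq]
        refine (hmass2 I hI τ).trans (le_of_eq ?_)
        have h1 : ∀ τ', mix η (fun i => mass I (Function.update ν j μ i τ')) j =
            mix η (fun i => mass I (ν i τ')) j := fun τ' =>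
          mix_congr fun i hi => by rw [hlt i hi]
        simp only [h1]
        rw [Fintype.prod_sum_type]
        simp only [hbase', Sum.elim_inl, Sum.elim_inr, Finset.prod_const, Finset.card_univ,
          Fintype.card_fin]
        have h2 : mass I (M τ) = ∑ τ', ker τ τ' * mix η (fun i => mass I (ν i τ')) j := by
          rw [hM, mass, ex_MM]
          refine Finset.sum_congr rfl fun τ' _ => ?_
          rw [← mass_mixf]
          rfl
        rw [h2]
        ring

end Pool.Agent.Helper78.FC.CL
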